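import Pool.Agent.Lib.MP_655bfb_lc.Ins.Core

set_option autoImplicit false

/-!
# Synchronous regular relations on words over an arbitrary alphabet
-/

namespace Pool.Agent.MP655Ins

universe u

section Regular

variable {α : Type u}

/-- State reached after reading the first `L` columns. -/
def run {ι Q : Type} (step : Q → (ι → Option α) → Q) (q0 : Q) (w : ι → List α) : ℕ → Q
  | 0 => q0
  | L + 1 => step (run step q0 w L) (fun i => (w i)[L]?)

theorem run_congr {ι Q : Type} (step : Q → (ι → Option α) → Q) (q0 : Q)
    (w w' : ι → List α) (L : ℕ)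
    (h : ∀ i, ∀ l < L, (w i)[l]? = (w' i)[l]?) : run step q0 w L = run step q0 w' L := by
  induction L with
  | zero => rfl
  | succ L ih =>
    simp only [run]
    rw [ih (fun i l hl => h i l (by omega))]
    congr 1
    funext i
    exact h i L (by omega)

/-- Synchronous regular relations: acceptance does not depend on trailing blank columns. -/
def Reg {ι : Type} (R : (ι → List α) → Prop) : Prop :=
  ∃ (Q : Type) (_ : Finite Q) (step : Q → (ι → Option α) → Q) (q0 : Q) (acc : Set Q),
    ∀ (w : ι → List α) (L : ℕ), (∀ i, (w i).length ≤ L) → (run step q0 w L ∈ acc ↔ R w)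

theorem run_add {ι Q : Type} (step : Q → (ι → Option α) → Q) (q0 : Q)
    (w : ι → List α) (L : ℕ) (hL : ∀ i, (w i).length ≤ L) (T : ℕ) :
    run step q0 w (L + T) = (fun q => step q (fun _ => none))^[T] (run step q0 w L) := by
  induction T with
  | zero => rfl
  | succ T ih =>
    rw [Function.iterate_succ_apply', ← ih, ← Nat.add_assoc]
    simp only [run]
    congr 1
    funext i
    exact List.getElem?_eq_none (by have := hL i; omega)

theorem Reg.of_eventually {ι Q : Type} [Finite ι] [Finite Q] {R : (ι → List α) → Prop}
    (step : Q → (ι → Option α) → Q) (q0 : Q) (acc : Set Q)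
    (h : ∀ w, ∃ L0, ∀ L, L0 ≤ L → (run step q0 w L ∈ acc ↔ R w)) : Reg R := by
  refine ⟨Q, inferInstance, step, q0,
    {q | ∃ T0, ∀ T, T0 ≤ T → (fun q => step q (fun _ => none))^[T] q ∈ acc}, ?_⟩
  intro w L hL
  obtain ⟨L0, hL0⟩ := h w
  simp only [Set.mem_ofPred_eq]
  simp only [← run_add step q0 w L hL]
  constructor
  · rintro ⟨T0, hT0⟩
    exact (hL0 (L + (T0 + L0)) (by omega)).1 (hT0 _ (by omega))
  · intro hR
    exact ⟨L0, fun T hT => (hL0 (L + T) (by omega)).2 hR⟩

theorem Reg.congr {ι : Type} {R R' : (ι → List α) → Prop} (h : Reg R) (hR : ∀ w, R w ↔ R' w) :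
    Reg R' := by
  have : R = R' := by
    funext w
    exact propext (hR w)
  rwa [← this]

theorem Reg.not {ι : Type} {R : (ι → List α) → Prop} (h : Reg R) : Reg (fun w => ¬ R w) := by
  obtain ⟨Q, hQ, step, q0, acc, H⟩ := h
  exact ⟨Q, hQ, step, q0, accᶜ, fun w L hL => not_congr (H w L hL)⟩

theorem Reg.const {ι : Type} (P : Prop) : Reg (fun _ : ι → List α => P) := by
  refine ⟨Unit, inferInstance, fun _ _ => (), (), {_q | P}, ?_⟩
  intro w L hL
  rfl

theorem Reg.forallFin {ι J : Type} [Finite J] {R : J → (ι → List α) → Prop}
    (h : ∀ j, Reg (R j)) : Reg (fun w => ∀ j, R j w) := by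
  choose Q hQ step q0 acc H using h
  refine ⟨∀ j, Q j, inferInstance, fun q c j => step j (q j) c, fun j => q0 j,
    {q | ∀ j, q j ∈ acc j}, ?_⟩
  intro w L hL
  have key : ∀ L j, run (fun (q : ∀ j, Q j) c j => step j (q j) c) (fun j => q0 j) w L j
      = run (step j) (q0 j) w L := by
    intro L
    induction L with
    | zero => intro j; rfl
    | succ L ih =>
      intro j
      simp only [run]
      rw [ih]
  simp only [Set.mem_ofPred_eq]
  exact forall_congr' fun j => by rw [key]; exact H j w L hL

theorem Reg.existsFin {ι J : Type} [Finite J] {R : J → (ι → List α) → Prop}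
    (h : ∀ j, Reg (R j)) : Reg (fun w => ∃ j, R j w) := by
  refine (Reg.forallFin (fun j => (h j).not)).not.congr ?_
  intro w
  simp

theorem Reg.and {ι : Type} {R R' : (ι → List α) → Prop} (h : Reg R) (h' : Reg R') :
    Reg (fun w => R w ∧ R' w) := by
  have : Reg (fun w => ∀ t : Bool, (if t then R w else R' w)) := by
    apply Reg.forallFin
    intro t
    cases t
    · simpa using h'
    · simpa using h
  refine this.congr ?_
  intro w
  simp [and_comm]

theorem Reg.imp {ι : Type} {R R' : (ι → List α) → Prop} (h : Reg R) (h' : Reg R') :
    Reg (fun w => R w → R' w) := by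
  refine (h.and h'.not).not.congr ?_
  intro w
  tauto

theorem Reg.comp {ι κ : Type} {R : (ι → List α) → Prop} (h : Reg R) (g : ι → κ) :
    Reg (fun w : κ → List α => R (fun i => w (g i))) := by
  obtain ⟨Q, hQ, step, q0, acc, H⟩ := h
  refine ⟨Q, hQ, fun q c => step q (fun i => c (g i)), q0, acc, ?_⟩
  intro w L hL
  change _ ↔ R (fun i => w (g i))
  rw [← H (fun i => w (g i)) L (fun i => hL (g i))]
  have key : ∀ L, run (fun q (c : κ → Option α) => step q (fun i => c (g i))) q0 w L
      = run step q0 (fun i => w (g i)) L := by
    intro L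
    induction L with
    | zero => rfl
    | succ L ih =>
      simp only [run]
      rw [ih]
  rw [key]

theorem Reg.eq {ι : Type} (i j : ι) : Reg (fun w : ι → List α => w i = w j) := by
  classical
  refine ⟨Prop, inferInstance, fun q c => q ∧ c i = c j, True, {q | q}, ?_⟩
  intro w L hL
  have key : ∀ L, run (fun (q : Prop) (c : ι → Option α) => q ∧ c i = c j) True w L
      ↔ ∀ l < L, (w i)[l]? = (w j)[l]? := by
    intro L
    induction L with
    | zero => simp [run]
    | succ L ih =>
      simp only [run]
      rw [ih]
      constructor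
      · rintro ⟨h1, h2⟩ l hl
        rcases Nat.lt_succ_iff_lt_or_eq.1 hl with h | h
        · exact h1 l h
        · rw [h]; exact h2
      · intro h
        exact ⟨fun l hl => h l (by omega), h L (by omega)⟩
  simp only [Set.mem_ofPred_eq]
  rw [key]
  constructor
  · intro h
    apply List.ext_getElem?
    intro l
    by_cases hl : l < L
    · exact h l hl
    · rw [List.getElem?_eq_none (by have := hL i; omega),
        List.getElem?_eq_none (by have := hL j; omega)]
  · intro h l _
    rw [h]

theorem Reg.existsWords {ι κ : Type} [Finite ι] [Finite κ] {R : (ι ⊕ κ → List α) → Prop}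
    (h : Reg R) : Reg (fun w : ι → List α => ∃ y : κ → List α, R (Sum.elim w y)) := by
  classical
  obtain ⟨Q, hQ, step, q0, acc, H⟩ := h
  let T : Set (Q × (κ → Prop)) → (ι → Option α) → Set (Q × (κ → Prop)) := fun S c =>
    {p | ∃ p0 ∈ S, ∃ d : κ → Option α, (∀ k, p0.2 k → d k = none) ∧
      p.1 = step p0.1 (Sum.elim c d) ∧ ∀ k, p.2 k ↔ d k = none}
  have key : ∀ (w : ι → List α) (L : ℕ),
      run T {p | p.1 = q0 ∧ ∀ k, ¬ p.2 k} w L
        = {p | ∃ y : κ → List α, p.1 = run step q0 (Sum.elim w y) L ∧
            ∀ k, p.2 k ↔ (y k).length < L} := by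
    intro w L
    induction L with
    | zero =>
      ext p
      simp [run]
    | succ L ih =>
      simp only [run]
      rw [ih]
      ext p
      simp only [T, Set.mem_ofPred_eq]
      constructor
      · rintro ⟨p0, ⟨y, hy1, hy2⟩, d, hd, hp1, hp2⟩
        refine ⟨fun k => match d k with
          | none => (y k).take L
          | some a => (y k).take L ++ [a], ?_, ?_⟩
        · rw [hp1, hy1]
          congr 1
          · apply run_congr
            intro i l hl
            rcases i with i | k
            · rfl
            · simp only [Sum.elim_inr]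
              rcases hdk : d k with _ | a
              · simp only [List.getElem?_take]
                simp [hl]
              · have hlen : ¬ (y k).length < L := by
                  intro hc
                  have := hd k ((hy2 k).2 hc)
                  rw [hdk] at this
                  exact absurd this (by simp)
                rw [List.getElem?_append_left (by simp; omega)]
                simp [hl]
          · funext i
            rcases i with i | k
            · rfl
            · simp only [Sum.elim_inr]
              rcases hdk : d k with _ | a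
              · simp
              · have hlen : ¬ (y k).length < L := by
                  intro hc
                  have := hd k ((hy2 k).2 hc)
                  rw [hdk] at this
                  exact absurd this (by simp)
                have h3 : ((y k).take L).length = L := by simp; omega
                rw [List.getElem?_append_right (by omega)]
                simp [h3]
        · intro k
          rw [hp2]
          rcases hdk : d k with _ | a
          · simp only [hdk, List.length_take, true_iff]
            omega
          · have hlen : ¬ (y k).length < L := by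
              intro hc
              have := hd k ((hy2 k).2 hc)
              rw [hdk] at this
              exact absurd this (by simp)
            simp only [hdk, List.length_append, List.length_take, List.length_cons,
              List.length_nil, reduceCtorEq, false_iff]
            omega
      · rintro ⟨y, hy1, hy2⟩
        refine ⟨(run step q0 (Sum.elim w y) L, fun k => (y k).length < L), ⟨y, rfl, fun k => Iff.rfl⟩,
          fun k => (y k)[L]?, ?_, ?_, ?_⟩
        · intro k hk
          exact List.getElem?_eq_none (by simp at hk; omega)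
        · rw [hy1]
          congr 1
          funext i
          rcases i with i | k <;> rfl
        · intro k
          rw [hy2]
          rw [List.getElem?_eq_none_iff]
          omega
  refine Reg.of_eventually T {p | p.1 = q0 ∧ ∀ k, ¬ p.2 k} {S | ∃ p ∈ S, p.1 ∈ acc} ?_
  intro w
  obtain ⟨L1, hL1⟩ : ∃ L1, ∀ i, (w i).length ≤ L1 := by
    obtain ⟨M, hM⟩ := (Set.finite_range (fun i => (w i).length)).bddAbove
    exact ⟨M, fun i => hM ⟨i, rfl⟩⟩
  by_cases hR : ∃ y : κ → List α, R (Sum.elim w y)
  · obtain ⟨y, hy⟩ := hR
    obtain ⟨L2, hL2⟩ : ∃ L2, ∀ i, (y i).length ≤ L2 := by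
      obtain ⟨M, hM⟩ := (Set.finite_range (fun i => (y i).length)).bddAbove
      exact ⟨M, fun i => hM ⟨i, rfl⟩⟩
    refine ⟨L1 + L2, fun L hL => ⟨fun _ => ⟨y, hy⟩, fun _ => ?_⟩⟩
    rw [key]
    refine ⟨(run step q0 (Sum.elim w y) L, fun k => (y k).length < L), ⟨y, rfl, fun k => Iff.rfl⟩, ?_⟩
    refine (H (Sum.elim w y) L ?_).2 hy
    intro i
    rcases i with i | k
    · have := hL1 i
      simp only [Sum.elim_inl]
      omega
    · have := hL2 k
      simp only [Sum.elim_inr]
      omega
  · refine ⟨L1, fun L hL => ⟨fun hS => ?_, fun hc => absurd hc hR⟩⟩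
    rw [key] at hS
    obtain ⟨p, ⟨y, hy1, hy2⟩, hp⟩ := hS
    refine ⟨fun k => (y k).take L, ?_⟩
    refine (H _ L ?_).1 ?_
    · intro i
      rcases i with i | k
      · have := hL1 i
        simp only [Sum.elim_inl]
        omega
      · simp
    · rw [hy1] at hp
      have hrun : run step q0 (Sum.elim w fun k => (y k).take L) L
          = run step q0 (Sum.elim w y) L := by
        apply run_congr
        intro i l hl
        rcases i with i | k
        · rfl
        · simp [hl]
      rw [hrun]
      exact hp

/-- Substituting constant words for some of the tapes. -/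
theorem Reg.params {ι κ : Type} [Finite ι] [Finite κ] {R : (ι ⊕ κ → List α) → Prop}
    (h : Reg R) (v : ι → List α) : Reg (fun w : κ → List α => R (Sum.elim v w)) := by
  obtain ⟨Q, hQ, step, q0, acc, H⟩ := h
  obtain ⟨M, hM⟩ : ∃ L1, ∀ i, (v i).length ≤ L1 := by
    obtain ⟨M, hM⟩ := (Set.finite_range (fun i => (v i).length)).bddAbove
    exact ⟨M, fun i => hM ⟨i, rfl⟩⟩
  let step' : Q × Fin (M + 1) → (κ → Option α) → Q × Fin (M + 1) := fun p c =>
    (step p.1 (Sum.elim (fun i => (v i)[p.2.1]?) c), ⟨min (p.2.1 + 1) M, by omega⟩)
  have key : ∀ (w : κ → List α) (L : ℕ), run step' (q0, ⟨0, by omega⟩) w L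
      = (run step q0 (Sum.elim v w) L, ⟨min L M, by omega⟩) := by
    intro w L
    induction L with
    | zero => simp [run]
    | succ L ih =>
      simp only [run]
      rw [ih]
      simp only [step', Prod.mk.injEq]
      constructor
      · congr 1
        funext i
        rcases i with i | k
        · simp only [Sum.elim_inl]
          by_cases hLM : L ≤ M
          · rw [min_eq_left hLM]
          · rw [List.getElem?_eq_none (by have := hM i; omega),
              List.getElem?_eq_none (by have := hM i; omega)]
        · rfl
      · ext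
        simp only
        omega
  refine Reg.of_eventually step' (q0, ⟨0, by omega⟩) {p | p.1 ∈ acc} ?_
  intro w
  obtain ⟨L1, hL1⟩ : ∃ L1, ∀ i, (w i).length ≤ L1 := by
    obtain ⟨M, hM⟩ := (Set.finite_range (fun i => (w i).length)).bddAbove
    exact ⟨M, fun i => hM ⟨i, rfl⟩⟩
  refine ⟨L1 + M, fun L hL => ?_⟩
  rw [key]
  simp only [Set.mem_ofPred_eq]
  refine H _ L ?_
  intro i
  rcases i with i | k
  · have := hM i
    simp only [Sum.elim_inl]
    omega
  · have := hL1 k
    simp only [Sum.elim_inr]
    omega

/-- Synchronous regular relations form a class in the sense of `Cls`. -/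
theorem Reg.cls : Cls (List α) (fun _ R => Reg R) where
  const _ P := Reg.const P
  not _ _ h := h.not
  all _ _ _ _ h := Reg.forallFin h
  comp _ _ g _ h := h.comp g
  eq _ i j := Reg.eq i j
  eqc ι i c := by
    have h1 : Reg (fun w : Unit ⊕ Unit → List α => w (Sum.inr ()) = w (Sum.inl ())) := Reg.eq _ _
    have h2 := h1.params (fun _ => c)
    exact h2.comp (fun _ : Unit => i)
  ex _ _ _ _ _ h := h.existsWords

end Regular

end Pool.Agent.MP655Ins
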