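import Mathlib

set_option autoImplicit false

/-!
# The cardinality argument for an abstract class of relations

`Cls X D`: the family `D` of relations on powers of `X` is closed under Boolean operations,
substitution of variables and quantification over `X`, and contains equality and the singletons.
`Cls.main`: if one value of the cardinality function of `A` can be excluded by a relation in `D`,
then `A` is in `D`.
-/

namespace Pool.Agent.MP655Ins

universe u

/-- Closure properties of a family of relations on powers of `X`. -/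
structure Cls (X : Type u) (D : ∀ ι : Type, ((ι → X) → Prop) → Prop) : Prop where
  const : ∀ (ι : Type) (P : Prop), D ι (fun _ => P)
  not : ∀ (ι : Type) (R : (ι → X) → Prop), D ι R → D ι (fun w => ¬ R w)
  all : ∀ (ι J : Type) [Finite J] (R : J → (ι → X) → Prop), (∀ j, D ι (R j)) →
    D ι (fun w => ∀ j, R j w)
  comp : ∀ (ι κ : Type) (g : ι → κ) (R : (ι → X) → Prop), D ι R →
    D κ (fun w => R (fun i => w (g i)))
  eq : ∀ (ι : Type) (i j : ι), D ι (fun w => w i = w j)
  eqc : ∀ (ι : Type) (i : ι) (c : X), D ι (fun w => w i = c)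
  ex : ∀ (ι κ : Type) [Finite ι] [Finite κ] (R : (ι ⊕ κ → X) → Prop), D (ι ⊕ κ) R →
    D ι (fun w => ∃ y : κ → X, R (Sum.elim w y))

namespace Cls

variable {X : Type u} {D : ∀ ι : Type, ((ι → X) → Prop) → Prop}

theorem cg {ι : Type} {R R' : (ι → X) → Prop} (h : D ι R) (hR : ∀ w, R w ↔ R' w) : D ι R' := by
  have : R = R' := by
    funext w
    exact propext (hR w)
  rwa [← this]

theorem exFin (hD : Cls X D) {ι J : Type} [Finite J] {R : J → (ι → X) → Prop}
    (h : ∀ j, D ι (R j)) : D ι (fun w => ∃ j, R j w) := by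
  refine cg (hD.not _ _ (hD.all ι J (fun j w => ¬ R j w) (fun j => hD.not _ _ (h j)))) ?_
  intro w
  simp

theorem and (hD : Cls X D) {ι : Type} {R R' : (ι → X) → Prop} (h : D ι R) (h' : D ι R') :
    D ι (fun w => R w ∧ R' w) := by
  have : D ι (fun w => ∀ t : Bool, (if t then R w else R' w)) := by
    apply hD.all ι Bool (fun t w => if t then R w else R' w)
    intro t
    cases t
    · simpa using h'
    · simpa using h
  refine cg this ?_
  intro w
  simp [and_comm]

theorem imp (hD : Cls X D) {ι : Type} {R R' : (ι → X) → Prop} (h : D ι R) (h' : D ι R') :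
    D ι (fun w => R w → R' w) := by
  refine cg (hD.not _ _ (hD.and h (hD.not _ _ h'))) ?_
  intro w
  tauto

theorem allX (hD : Cls X D) {ι κ : Type} [Finite ι] [Finite κ] {R : (ι ⊕ κ → X) → Prop}
    (h : D (ι ⊕ κ) R) : D ι (fun w => ∀ y : κ → X, R (Sum.elim w y)) := by
  refine cg (hD.not _ _ (hD.ex ι κ (fun w => ¬ R w) (hD.not _ _ h))) ?_
  intro w
  simp

theorem exOne (hD : Cls X D) {ι : Type} [Finite ι] {R : (ι ⊕ Unit → X) → Prop}
    (h : D (ι ⊕ Unit) R) : D ι (fun w => ∃ x : X, R (Sum.elim w (fun _ => x))) := by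
  refine cg (hD.ex _ _ _ h) ?_
  intro w
  constructor
  · rintro ⟨y, hy⟩
    refine ⟨y (), ?_⟩
    have : (fun _ : Unit => y ()) = y := by
      funext u
      rfl
    rw [this]
    exact hy
  · rintro ⟨x, hx⟩
    exact ⟨fun _ => x, hx⟩

/-- Substituting constants for some of the variables. -/
theorem params (hD : Cls X D) {ι κ : Type} [Finite ι] [Finite κ] {R : (ι ⊕ κ → X) → Prop}
    (h : D (ι ⊕ κ) R) (v : ι → X) : D κ (fun w => R (Sum.elim v w)) := by
  have h1 : D (κ ⊕ ι) (fun u => (∀ i, u (Sum.inr i) = v i) ∧ R (fun i => u (Sum.swap i))) :=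
    hD.and (hD.all _ _ (fun i u => u (Sum.inr i) = v i) (fun i => hD.eqc _ _ _))
      (hD.comp (ι ⊕ κ) (κ ⊕ ι) Sum.swap R h)
  refine cg (hD.ex _ _ _ h1) ?_
  intro w
  have hsw : ∀ y : ι → X, (fun i => (Sum.elim w y) (Sum.swap i)) = Sum.elim y w := by
    intro y
    funext i
    rcases i with i | i <;> rfl
  constructor
  · rintro ⟨y, hy1, hy2⟩
    have hyv : y = v := funext hy1
    rw [hsw, hyv] at hy2
    exact hy2
  · intro hw
    refine ⟨v, fun i => rfl, ?_⟩
    rw [hsw]
    exact hw

/-- The same family, read on the power `Fin r → X`. -/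
theorem pow (hD : Cls X D) (r : ℕ) : Cls (Fin r → X)
    (fun ι R => D (ι × Fin r) (fun w => R (fun i j => w (i, j)))) where
  const ι P := hD.const _ P
  not ι R h := hD.not _ _ h
  all ι J _ R h := hD.all _ _ _ h
  comp ι κ g R h := hD.comp (ι × Fin r) (κ × Fin r) (fun p => (g p.1, p.2)) _ h
  eq ι i j := by
    refine cg (hD.all (ι × Fin r) (Fin r) (fun t w => w (i, t) = w (j, t))
      (fun t => hD.eq _ _ _)) ?_
    intro w
    exact funext_iff.symm
  eqc ι i c := by
    refine cg (hD.all (ι × Fin r) (Fin r) (fun t w => w (i, t) = c t)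
      (fun t => hD.eqc _ _ _)) ?_
    intro w
    exact funext_iff.symm
  ex ι κ _ _ R h := by
    have h1 := hD.comp ((ι ⊕ κ) × Fin r) ((ι × Fin r) ⊕ (κ × Fin r))
      (fun p => Sum.elim (fun i => Sum.inl (i, p.2)) (fun k => Sum.inr (k, p.2)) p.1) _ h
    refine cg (hD.ex _ _ _ h1) ?_
    intro w
    constructor
    · rintro ⟨y, hy⟩
      refine ⟨fun k j => y (k, j), ?_⟩
      have : (Sum.elim (fun i j => w (i, j)) (fun k j => y (k, j)) : ι ⊕ κ → Fin r → X) =
          fun i j => (Sum.elim w y) (Sum.elim (fun i => Sum.inl (i, j))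
            (fun k => Sum.inr (k, j)) i) := by
        funext i j
        rcases i with i | i <;> rfl
      rw [this]
      exact hy
    · rintro ⟨y, hy⟩
      refine ⟨fun p => y p.1 p.2, ?_⟩
      have : (Sum.elim (fun i j => w (i, j)) y : ι ⊕ κ → Fin r → X) =
          fun i j => (Sum.elim w (fun p : κ × Fin r => y p.1 p.2))
            (Sum.elim (fun i => Sum.inl (i, j)) (fun k => Sum.inr (k, j)) i) := by
        funext i j
        rcases i with i | i <;> rfl
      rw [this] at hy
      exact hy

end Cls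

section Trees

variable {X : Type u}

/-- The class `H` of two-valued functions shatters a binary tree of depth `k`, nodes in `Y`. -/
def TR (Y : Set X) : ℕ → Set (X → Bool) → Prop
  | 0, H => H.Nonempty
  | k + 1, H => ∃ x ∈ Y, ∀ t : Bool, TR Y k {f | f ∈ H ∧ f x = t}

theorem TR.mono {Y Y' : Set X} (hY : Y ⊆ Y') {k : ℕ} {H H' : Set (X → Bool)} (hH : H ⊆ H')
    (h : TR Y k H) : TR Y' k H' := by
  induction k generalizing H H' with
  | zero => exact Set.Nonempty.mono hH h
  | succ k ih =>
    obtain ⟨x, hx, ht⟩ := h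
    exact ⟨x, hY hx, fun t => ih (fun f hf => ⟨hH hf.1, hf.2⟩) (ht t)⟩

theorem TR.nonempty {Y : Set X} {k : ℕ} {H : Set (X → Bool)} (h : TR Y k H) : H.Nonempty := by
  induction k generalizing H with
  | zero => exact h
  | succ k ih =>
    obtain ⟨x, hx, ht⟩ := h
    obtain ⟨f, hf⟩ := ih (ht true)
    exact ⟨f, hf.1⟩

theorem TR.color {Y : Set X} (c : X → Bool) (N : ℕ) : ∀ (p q : ℕ), p + q = N →
    ∀ {H : Set (X → Bool)}, TR Y N H →
      TR {y | y ∈ Y ∧ c y = true} p H ∨ TR {y | y ∈ Y ∧ c y = false} q H := by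
  induction N with
  | zero =>
    intro p q hpq H h
    obtain rfl : p = 0 := by omega
    exact Or.inl h
  | succ N ih =>
    intro p q hpq H h
    have hne := h.nonempty
    obtain ⟨x, hx, ht⟩ := h
    rcases hc : c x with _ | _
    · rcases q with _ | q
      · exact Or.inr hne
      · by_cases h1 : ∃ t : Bool, TR {y | y ∈ Y ∧ c y = true} p {f | f ∈ H ∧ f x = t}
        · obtain ⟨t, h1⟩ := h1
          exact Or.inl (h1.mono (le_refl _) (fun f hf => hf.1))
        · push Not at h1
          exact Or.inr ⟨x, ⟨hx, hc⟩, fun t => (ih p q (by omega) (ht t)).resolve_left (h1 t)⟩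
    · rcases p with _ | p
      · exact Or.inl hne
      · by_cases h1 : ∃ t : Bool, TR {y | y ∈ Y ∧ c y = false} q {f | f ∈ H ∧ f x = t}
        · obtain ⟨t, h1⟩ := h1
          exact Or.inr (h1.mono (le_refl _) (fun f hf => hf.1))
        · push Not at h1
          exact Or.inl ⟨x, ⟨hx, hc⟩, fun t => (ih p q (by omega) (ht t)).resolve_right (h1 t)⟩

def thr : ℕ → ℕ
  | 0 => 0
  | N + 1 => (thr N + 1) + (thr N + 1)

theorem TR.counts [DecidableEq X] (N : ℕ) : ∀ {Y : Set X} {H : Set (X → Bool)}, TR Y (thr N) H →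
    ∃ S : Finset X, (↑S : Set X) ⊆ Y ∧ S.card = N ∧
      ∀ j ≤ N, ∃ f ∈ H, (S.filter (fun x => f x = true)).card = j := by
  induction N with
  | zero =>
    intro Y H h
    obtain ⟨f, hf⟩ := h.nonempty
    exact ⟨∅, by simp, rfl, fun j hj => ⟨f, hf, by simp; omega⟩⟩
  | succ N ih =>
    intro Y H h
    obtain ⟨g, hg⟩ := h.nonempty
    rcases TR.color g _ (thr N + 1) (thr N + 1) rfl h with h1 | h1
    · obtain ⟨x, ⟨hxY, hgx⟩, ht⟩ := h1
      obtain ⟨S, hSY, hS, hcnt⟩ := ih (ht false)
      have hxS : x ∉ S := by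
        intro hxS
        obtain ⟨f, ⟨_, hfx⟩, hfc⟩ := hcnt N le_rfl
        have h2 : S.filter (fun x => f x = true) = S :=
          Finset.eq_of_subset_of_card_le (Finset.filter_subset _ _) (by omega)
        rw [← h2, Finset.mem_filter] at hxS
        rw [hfx] at hxS
        exact absurd hxS.2 (by simp)
      refine ⟨insert x S, ?_, ?_, ?_⟩
      · rw [Finset.coe_insert]
        exact Set.insert_subset hxY (fun y hy => (hSY hy).1)
      · rw [Finset.card_insert_of_notMem hxS, hS]
      · intro j hj
        rcases Nat.lt_or_ge j (N + 1) with hj' | hj'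
        · obtain ⟨f, ⟨hfH, hfx⟩, hfc⟩ := hcnt j (by omega)
          refine ⟨f, hfH, ?_⟩
          rw [Finset.filter_insert, if_neg (by simp [hfx])]
          exact hfc
        · refine ⟨g, hg, ?_⟩
          have : (insert x S).filter (fun x => g x = true) = insert x S := by
            apply Finset.filter_true_of_mem
            intro y hy
            rcases Finset.mem_insert.1 hy with hy | hy
            · rw [hy]; exact hgx
            · exact (hSY hy).2
          rw [this, Finset.card_insert_of_notMem hxS, hS]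
          omega
    · obtain ⟨x, ⟨hxY, hgx⟩, ht⟩ := h1
      obtain ⟨S, hSY, hS, hcnt⟩ := ih (ht true)
      have hxS : x ∉ S := by
        intro hxS
        obtain ⟨f, ⟨_, hfx⟩, hfc⟩ := hcnt 0 (Nat.zero_le _)
        rw [Finset.card_eq_zero, Finset.filter_eq_empty_iff] at hfc
        exact hfc hxS hfx
      refine ⟨insert x S, ?_, ?_, ?_⟩
      · rw [Finset.coe_insert]
        exact Set.insert_subset hxY (fun y hy => (hSY hy).1)
      · rw [Finset.card_insert_of_notMem hxS, hS]
      · intro j hj
        rcases j with _ | j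
        · refine ⟨g, hg, ?_⟩
          rw [Finset.card_eq_zero, Finset.filter_eq_empty_iff]
          intro y hy
          rcases Finset.mem_insert.1 hy with hy | hy
          · rw [hy, hgx]; simp
          · rw [(hSY hy).2]; simp
        · obtain ⟨f, ⟨hfH, hfx⟩, hfc⟩ := hcnt j (by omega)
          refine ⟨f, hfH, ?_⟩
          rw [Finset.filter_insert, if_pos hfx, Finset.card_insert_of_notMem, hfc]
          intro hc
          exact hxS (Finset.mem_filter.1 hc).1

end Trees

section Main

variable {X : Type u} {n : ℕ}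

/-- `f` respects the constraint `C` on all injective tuples from `F`. -/
def Good (C : (Fin n → X) → Finset ℕ) (F : Set X) (f : X → Bool) : Prop :=
  ∀ w : Fin n → X, (∀ j, w j ∈ F) → Function.Injective w →
    (Finset.univ.filter (fun j => f (w j) = true)).card ∈ C w

/-- The labelling `v i ↦ b i` extends to any `m` more points. -/
def Ext (C : (Fin n → X) → Finset ℕ) (m : ℕ) {ι : Type} (b : ι → Bool)
    (v : ι → X) : Prop :=
  ∀ y : Fin m → X, ∃ f : X → Bool, (∀ i, f (v i) = b i) ∧
    Good C (Set.range v ∪ Set.range y) f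

/-- The rank predicate. -/
def Rk (C : (Fin n → X) → Finset ℕ) (m : ℕ) : ℕ → ∀ {ι : Type}, (ι → Bool) →
    (ι → X) → Prop
  | 0, _, b, v => Ext C m b v
  | k + 1, _, b, v => ∃ x : X, ∀ t : Bool,
      Rk C m k (Sum.elim b (fun _ : Unit => t)) (Sum.elim v (fun _ : Unit => x))

theorem Good.mono {C : (Fin n → X) → Finset ℕ} {F F' : Set X} {f : X → Bool}
    (h : Good C F' f) (hF : F ⊆ F') : Good C F f :=
  fun w hw hi => h w (fun j => hF (hw j)) hi

theorem Ext.cls {D : ∀ ι : Type, ((ι → X) → Prop) → Prop} (hD : Cls X D)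
    {C : (Fin n → X) → Finset ℕ} (hC : ∀ t, D (Fin n) (fun w => t ∈ C w))
    (m : ℕ) {ι : Type} [Finite ι] (b : ι → Bool) : D ι (fun v : ι → X => Ext C m b v) := by
  have h1 : D (ι ⊕ Fin m) (fun u : ι ⊕ Fin m → X => ∃ c : ι ⊕ Fin m → Bool,
      (∀ i, c (Sum.inl i) = b i) ∧ (∀ i j, u i = u j → c i = c j) ∧
      ∀ g : Fin n → ι ⊕ Fin m, (∀ j j', u (g j) = u (g j') → j = j') →
        (Finset.univ.filter (fun j => c (g j) = true)).card ∈ C (fun j => u (g j))) := by
    refine hD.exFin fun c => hD.and (hD.const _ _) (hD.and ?_ ?_)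
    · refine hD.all _ _ _ fun i => hD.all _ _ _ fun j => hD.imp (hD.eq _ i j) (hD.const _ _)
    · refine hD.all _ _ _ fun g => hD.imp ?_ ?_
      · exact hD.all _ _ _ fun j => hD.all _ _ _ fun j' => hD.imp (hD.eq _ _ _) (hD.const _ _)
      · exact hD.comp _ _ g _ (hC _)
  refine Cls.cg (hD.allX h1) ?_
  intro v
  refine forall_congr' fun y => ?_
  constructor
  · rintro ⟨c, hc1, hc2, hc3⟩
    classical
    refine ⟨fun x => if h : ∃ i, Sum.elim v y i = x then c h.choose else false, ?_, ?_⟩
    · intro i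
      have h : ∃ i', Sum.elim v y i' = v i := ⟨Sum.inl i, rfl⟩
      simp only [dif_pos h]
      rw [← hc1 i]
      exact hc2 _ _ h.choose_spec
    · intro w hw hi
      rw [← Set.Sum.elim_range] at hw
      choose g hg using hw
      have hgw : (fun j => Sum.elim v y (g j)) = w := funext hg
      have := hc3 g (fun j j' hjj => hi (by rw [← hg j, ← hg j', hjj]))
      rw [hgw] at this
      have hfil : (Finset.univ.filter (fun j => (if h : ∃ i, Sum.elim v y i = w j then
          c h.choose else false) = true)) = Finset.univ.filter (fun j => c (g j) = true) := by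
        apply Finset.filter_congr
        intro j _
        have h : ∃ i', Sum.elim v y i' = w j := ⟨g j, hg j⟩
        simp only [dif_pos h]
        rw [hc2 h.choose (g j) (by rw [h.choose_spec, hg j])]
      rw [hfil]
      exact this
  · rintro ⟨f, hf1, hf2⟩
    refine ⟨fun i => f (Sum.elim v y i), fun i => hf1 i, fun i j hij => by simp only [hij], ?_⟩
    intro g hg
    refine hf2 (fun j => Sum.elim v y (g j)) ?_ (fun j j' hjj => hg j j' hjj)
    intro j
    rw [← Set.Sum.elim_range]
    exact ⟨g j, rfl⟩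

theorem Rk.cls {D : ∀ ι : Type, ((ι → X) → Prop) → Prop} (hD : Cls X D)
    {C : (Fin n → X) → Finset ℕ} (hC : ∀ t, D (Fin n) (fun w => t ∈ C w))
    (m k : ℕ) : ∀ {ι : Type} [Finite ι] (b : ι → Bool),
      D ι (fun v : ι → X => Rk C m k b v) := by
  induction k with
  | zero =>
    intro ι _ b
    exact Ext.cls hD hC m b
  | succ k ih =>
    intro ι _ b
    have h1 : D (ι ⊕ Unit) (fun u : ι ⊕ Unit → X => ∀ t : Bool,
        Rk C m k (Sum.elim b (fun _ : Unit => t)) u) :=
      hD.all _ _ _ fun t => ih _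
    exact hD.exOne h1

theorem exists_enum [Nonempty X] (Y : Finset X) (m : ℕ) (h : Y.card ≤ m) :
    ∃ y : Fin m → X, (↑Y : Set X) ⊆ Set.range y := by
  refine ⟨fun j => Y.toList.getD j.1 (Classical.arbitrary X), ?_⟩
  intro x hx
  have hx' : x ∈ Y.toList := by simpa using hx
  obtain ⟨i, hi, hix⟩ := List.getElem_of_mem hx'
  have : i < m := by
    rw [Finset.length_toList] at hi
    omega
  exact ⟨⟨i, this⟩, by simp [List.getD, List.getElem?_eq_getElem hi, hix]⟩

theorem Rk.tree [Nonempty X] [DecidableEq X] {C : (Fin n → X) → Finset ℕ} (m k : ℕ) :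
    ∀ {ι : Type} (b : ι → Bool) (v : ι → X), Rk C m k b v →
      ∃ Z : Finset X, Z.card + 1 ≤ 2 ^ k ∧
        ∀ Y : Finset X, Z ⊆ Y → Y.card ≤ m →
          TR (↑Z : Set X) k
            {f | (∀ i, f (v i) = b i) ∧ Good C (Set.range v ∪ ↑Y) f} := by
  induction k with
  | zero =>
    intro ι b v h
    refine ⟨∅, by simp, ?_⟩
    intro Y _ hY
    obtain ⟨y, hy⟩ := exists_enum Y m hY
    obtain ⟨f, hf1, hf2⟩ := h y
    exact ⟨f, hf1, hf2.mono (Set.union_subset_union_right _ hy)⟩
  | succ k ih =>
    intro ι b v h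
    obtain ⟨x, hx⟩ := h
    choose Z hZc hZ using fun t => ih _ _ (hx t)
    refine ⟨insert x (Z false ∪ Z true), ?_, ?_⟩
    · have h1 := Finset.card_insert_le x (Z false ∪ Z true)
      have h2 := Finset.card_union_le (Z false) (Z true)
      have h3 := hZc false
      have h4 := hZc true
      rw [pow_succ]
      omega
    · intro Y hZY hY
      refine ⟨x, by simp, fun t => ?_⟩
      have hsub : Z t ⊆ insert x (Z false ∪ Z true) := by
        intro z hz
        cases t <;> simp [hz]
      have hxY : x ∈ Y := hZY (by simp)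
      refine (hZ t Y (hsub.trans hZY) hY).mono ?_ ?_
      · exact_mod_cast hsub
      · rintro f ⟨hf1, hf2⟩
        refine ⟨⟨fun i => hf1 (Sum.inl i), hf2.mono ?_⟩, hf1 (Sum.inr ())⟩
        rw [Set.Sum.elim_range]
        intro z hz
        rcases hz with hz | hz
        · exact Or.inl (Or.inl hz)
        · exact Or.inr hz

theorem Rk.bounded [Nonempty X] {C : (Fin n → X) → Finset ℕ}
    (hCn : ∀ w, Function.Injective w → (C w).card ≤ n)
    (b : Empty → Bool) (v : Empty → X) : ¬ Rk C (2 ^ thr n) (thr n) b v := by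
  classical
  intro h
  obtain ⟨Z, hZ, hT⟩ := Rk.tree _ _ b v h
  obtain ⟨S, hSZ, hS, hcnt⟩ := (hT Z (Finset.Subset.refl _) (by omega)).counts
  let e := S.equivFinOfCardEq hS
  let w : Fin n → X := fun j => (e.symm j).1
  have hwi : Function.Injective w := fun j j' hjj => e.symm.injective (Subtype.ext hjj)
  have hall : ∀ j ≤ n, j ∈ C w := by
    intro j hj
    obtain ⟨f, ⟨_, hf⟩, hfj⟩ := hcnt j hj
    have h1 := hf w (fun j => Or.inr (hSZ (e.symm j).2)) hwi
    have h2 : (Finset.univ.filter (fun j => f (w j) = true)).card = j := by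
      rw [← hfj, ← Finset.card_map (⟨w, hwi⟩ : Fin n ↪ X)]
      congr 1
      ext x
      simp only [Finset.mem_map, Finset.mem_filter, Finset.mem_univ, true_and,
        Function.Embedding.coeFn_mk]
      constructor
      · rintro ⟨j, hj, rfl⟩
        exact ⟨(e.symm j).2, hj⟩
      · rintro ⟨hx, hfx⟩
        refine ⟨e ⟨x, hx⟩, ?_, ?_⟩
        · simp only [w, Equiv.symm_apply_apply]
          exact hfx
        · simp only [w, Equiv.symm_apply_apply]
    rwa [h2] at h1
  have h3 : Finset.range (n + 1) ⊆ C w := by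
    intro j hj
    exact hall j (by simpa [Nat.lt_succ_iff] using hj)
  have h4 := Finset.card_le_card h3
  have h5 := hCn w hwi
  simp only [Finset.card_range] at h4
  omega

/-- The cardinality theorem for an abstract class of relations. -/
theorem Cls.good {D : ∀ ι : Type, ((ι → X) → Prop) → Prop} (hD : Cls X D)
    {C : (Fin n → X) → Finset ℕ} (hC : ∀ t, D (Fin n) (fun w => t ∈ C w))
    (hCn : ∀ w, Function.Injective w → (C w).card ≤ n) (A : Set X) (F : X → Bool)
    (hF : ∀ x, F x = true ↔ x ∈ A) (hA : Good C Set.univ F) :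
    D Unit (fun w : Unit → X => w () ∈ A) := by
  rcases isEmpty_or_nonempty X with hX | hX
  · exact Cls.cg (hD.const Unit False) (fun w => (hX.false (w ())).elim)
  let P : ℕ → Prop := fun k => ∀ (ι : Type) (_ : Finite ι) (v : ι → X) (m : ℕ),
    Rk C m k (fun i => F (v i)) v
  have hP0 : P 0 := fun ι _ v m y => ⟨F, fun i => rfl, hA.mono (Set.subset_univ _)⟩
  have hPn : ¬ P (thr n) := fun h => Rk.bounded hCn _ _ (h Empty inferInstance Empty.elim _)
  obtain ⟨k, hk, hk1⟩ : ∃ k, P k ∧ ¬ P (k + 1) := by
    by_contra hcon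
    push Not at hcon
    have : ∀ k, P k := by
      intro k
      induction k with
      | zero => exact hP0
      | succ k ih => exact hcon k ih
    exact hPn (this _)
  simp only [P] at hk1
  push Not at hk1
  obtain ⟨ι, hι, v, m, hkm⟩ := hk1
  have hR := hD.params (Rk.cls hD hC m k (Sum.elim (fun i => F (v i)) (fun _ : Unit => true))) v
  refine Cls.cg hR ?_
  intro w
  have hfix : ∀ t, F (w ()) = t → Rk C m k (Sum.elim (fun i => F (v i)) (fun _ : Unit => t))
      (Sum.elim v w) := by
    intro t ht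
    have := hk (ι ⊕ Unit) inferInstance (Sum.elim v w) m
    have hfun : (Sum.elim (fun i => F (v i)) (fun _ : Unit => t) : ι ⊕ Unit → Bool) =
        fun i => F (Sum.elim v w i) := by
      funext i
      rcases i with i | i
      · rfl
      · exact ht.symm
    rw [hfun]
    exact this
  constructor
  · intro h
    rw [← hF]
    by_contra hFw
    rw [Bool.not_eq_true] at hFw
    apply hkm
    refine ⟨w (), fun t => ?_⟩
    have hw : (fun _ : Unit => w ()) = w := by
      funext u
      rfl
    rw [hw]
    cases t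
    · exact hfix false hFw
    · exact h
  · intro h
    exact hfix true ((hF _).2 h)

/-- The cardinality theorem for an abstract class of relations, set form. -/
theorem Cls.main {D : ∀ ι : Type, ((ι → X) → Prop) → Prop} (hD : Cls X D)
    {C : (Fin n → X) → Finset ℕ} (hC : ∀ t, D (Fin n) (fun w => t ∈ C w))
    (A : Set X)
    (hA : ∀ w : Fin n → X, Function.Injective w →
      (C w).card ≤ n ∧ ({i | w i ∈ A} : Set (Fin n)).ncard ∈ C w) :
    D Unit (fun w : Unit → X => w () ∈ A) := by
  classical
  refine hD.good hC (fun w hw => (hA w hw).1) A (fun x => decide (x ∈ A)) (by simp) ?_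
  intro w _ hw
  have h := (hA w hw).2
  have h2 : ({i | w i ∈ A} : Set (Fin n)).ncard
      = (Finset.univ.filter (fun j => decide (w j ∈ A) = true)).card := by
    rw [← Set.ncard_coe_finset]
    congr 1
    ext j
    simp
  rw [h2] at h
  exact h

end Main

end Pool.Agent.MP655Ins
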