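import Pool.Agent.Lib.MP_655bfb_lc.Ins.Last

set_option autoImplicit false

/-!
# The cardinality theorem for first-order definability in every structure
-/

namespace Pool.Agent.MP655Ins

universe u v w

/-- Sets definable with parameters form a class in the sense of `Cls`. -/
theorem definable_cls (L : FirstOrder.Language.{u, v}) (M : Type w) [L.Structure M] :
    Cls M (fun ι R => (Set.univ : Set M).Definable L {x : ι → M | R x}) where
  const ι P := by
    by_cases hP : P
    · have : {x : ι → M | P} = Set.univ := by
        ext x
        simp [hP]
      rw [this]
      exact Set.definable_univ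
    · have : {x : ι → M | P} = ∅ := by
        ext x
        simp [hP]
      rw [this]
      exact Set.definable_empty
  not ι R h := h.compl
  all ι J _ R h := by
    have : {x : ι → M | ∀ j, R j x} = ⋂ j, {x | R j x} := by
      ext x
      simp
    rw [this]
    exact Set.definable_iInter_of_finite h
  comp ι κ g R h := Set.Definable.preimage_comp g h
  eq ι i j := Set.DefinableFun.ofPred_eq (Set.DefinableFun.proj L) (Set.DefinableFun.proj L)
  eqc ι i c := Set.DefinableFun.ofPred_eq_const (Set.DefinableFun.proj L) (Set.mem_univ c)
  ex ι κ _ _ R h := Set.Definable.exists_of_finite h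

/-- The cardinality theorem for first-order definability with parameters in every structure. -/
theorem everyStructure (L : FirstOrder.Language.{u, v}) (M : Type w) [L.Structure M] (r n : ℕ)
    (A : Set (Fin r → M)) (C : (Fin n → Fin r → M) → Finset ℕ)
    (hC : ∀ t ≤ n, (Set.univ : Set M).Definable L
        {x : Fin n × Fin r → M | t ∈ C (fun i j => x (i, j))})
    (hA : ∀ x : Fin n → Fin r → M, Function.Injective x →
        (C x).card ≤ n ∧ ({i | x i ∈ A} : Set (Fin n)).ncard ∈ C x) :
    (Set.univ : Set M).Definable L A := by
  have h := ((definable_cls L M).pow r).mainLe (C := C) hC A hA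
  exact (definable_cls L M).comp (Unit × Fin r) (Fin r) Prod.snd _ h

end Pool.Agent.MP655Ins
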