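import Pool.Agent.Lib.MP_655bfb_lc.Ins.Aut

set_option autoImplicit false

/-!
# Automata reading a tuple of words synchronously, and the class `Reg`
-/

namespace Pool.Agent.MP655Ins

universe u z

theorem foldl_range {α : Type z} {ι Q : Type} (step : Q → (ι → Option α) → Q)
    (start : Q) (x : ι → List α) (L : ℕ) :
    List.foldl step start ((List.range L).map fun t i => (x i)[t]?) = run step start x L := by
  induction L with
  | zero => rfl
  | succ L ih =>
    rw [List.range_succ, List.map_append, List.foldl_append, ih]
    rfl

/-- Membership of the last state in a fixed set is a synchronous regular relation. -/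
theorem reg_last {α : Type z} {ι Q : Type} [Fintype ι] [Finite Q]
    (step : Q → (ι → Option α) → Q) (start : Q) (S : Set Q) :
    Reg (fun x : ι → List α => List.foldl step start
      ((List.range (Finset.univ.sup fun i => (x i).length)).map fun t i => (x i)[t]?) ∈ S) := by
  classical
  let step' : Q → (ι → Option α) → Q := fun q c => if ∀ j, c j = none then q else step q c
  have key1 : ∀ (x : ι → List α) (L : ℕ), L ≤ (Finset.univ.sup fun j => (x j).length) →
      run step' start x L = run step start x L := by
    intro x L
    induction L with
    | zero => intro _; rfl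
    | succ L ih =>
      intro hL
      simp only [run]
      rw [ih (by omega)]
      simp only [step']
      rw [if_neg]
      intro hc
      have : (Finset.univ.sup fun j => (x j).length) ≤ L := by
        apply Finset.sup_le
        intro j _
        exact List.getElem?_eq_none_iff.1 (hc j)
      omega
  have key2 : ∀ (x : ι → List α) (L : ℕ), (Finset.univ.sup fun j => (x j).length) ≤ L →
      run step' start x L
        = run step start x (Finset.univ.sup fun j => (x j).length) := by
    intro x L hL
    induction L, hL using Nat.le_induction with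
    | base => exact key1 x _ le_rfl
    | succ L hL ih =>
      simp only [run]
      rw [ih]
      simp only [step']
      rw [if_pos]
      intro j
      apply List.getElem?_eq_none
      exact le_trans (Finset.le_sup (f := fun j => (x j).length) (Finset.mem_univ j)) hL
  refine ⟨Q, inferInstance, step', start, S, ?_⟩
  intro x L hL
  rw [key2 x L (Finset.sup_le fun j _ => hL j), ← foldl_range]

theorem Reg.toAut {α : Type z} {ι : Type} [Fintype ι] {R : (ι → List α) → Prop} (h : Reg R) :
    ∃ (k : ℕ) (M : DFA (ι → Option α) (Fin k)), ∀ x : ι → List α,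
      R x ↔ (List.range (Finset.univ.sup fun i => (x i).length)).map (fun t i => (x i)[t]?) ∈
        M.accepts := by
  obtain ⟨Q, hQ, step, q0, acc, H⟩ := h
  obtain ⟨k, ⟨e⟩⟩ := Finite.exists_equiv_fin Q
  refine ⟨k, ⟨fun q c => e (step (e.symm q) c), e q0, {q | e.symm q ∈ acc}⟩, ?_⟩
  intro x
  have key : ∀ L : ℕ, run (fun q c => e (step (e.symm q) c)) (e q0) x L = e (run step q0 x L) := by
    intro L
    induction L with
    | zero => rfl
    | succ L ih =>
      simp only [run]
      rw [ih, Equiv.symm_apply_apply]
  rw [DFA.mem_accepts, DFA.eval, DFA.evalFrom, foldl_range, key]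
  simp only [Set.mem_ofPred_eq, Equiv.symm_apply_apply]
  exact (H x _ (fun i => Finset.le_sup (f := fun j => (x j).length) (Finset.mem_univ i))).symm

/-- `Cls.main` with the constraint read only at the numbers `0, ..., n`. -/
theorem Cls.mainLe {X : Type u} {D : ∀ ι : Type, ((ι → X) → Prop) → Prop} (hD : Cls X D)
    {n : ℕ} {C : (Fin n → X) → Finset ℕ} (hC : ∀ t ≤ n, D (Fin n) (fun x => t ∈ C x))
    (A : Set X)
    (hA : ∀ x : Fin n → X, Function.Injective x →
      (C x).card ≤ n ∧ ({i | x i ∈ A} : Set (Fin n)).ncard ∈ C x) :
    D Unit (fun x : Unit → X => x () ∈ A) := by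
  classical
  refine hD.main (C := fun x => (C x).filter (fun t => t ≤ n)) ?_ A ?_
  · intro t
    by_cases ht : t ≤ n
    · refine Cls.cg (hC t ht) ?_
      intro x
      simp [ht]
    · refine Cls.cg (hD.const _ False) ?_
      intro x
      simp [ht]
  · intro x hx
    refine ⟨(Finset.card_le_card (Finset.filter_subset _ _)).trans (hA x hx).1, ?_⟩
    rw [Finset.mem_filter]
    refine ⟨(hA x hx).2, ?_⟩
    calc ({i | x i ∈ A} : Set (Fin n)).ncard ≤ (Set.univ : Set (Fin n)).ncard :=
          Set.ncard_le_ncard (Set.subset_univ _) Set.finite_univ
      _ = n := by simp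

end Pool.Agent.MP655Ins
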